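import Mathlib
import Pool.Agent.H47.ND.Main

set_option autoImplicit false

namespace Pool.Agent.Results.MP_3347f5_an.PositiveAnswer

open Set
open scoped ContDiff Topology

variable {n : ℕ}

/-- The boundary of `Ω` is `C^∞`: near each of its points `Ω` is the set `{φ < 0}` of a `C^∞`
function `φ` with nonvanishing derivative at the point. -/
def SmoothBoundary (Ω : Set (EuclideanSpace ℝ (Fin n))) : Prop :=
  ∀ x ∈ frontier Ω, ∃ U ∈ 𝓝 x, ∃ φ : EuclideanSpace ℝ (Fin n) → ℝ,
    ContDiff ℝ ∞ φ ∧ fderiv ℝ φ x ≠ 0 ∧ ∀ y ∈ U, (y ∈ Ω ↔ φ y < 0)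

/-- The coefficients considered: continuous on the closure of `Ω`, `C^2` in `Ω`, with values in
`[1/K, K]`. This class contains all coefficients which are `C^2` on the closure of `Ω` with values
in `[1/K, K]`. -/
def Admissible (Ω : Set (EuclideanSpace ℝ (Fin n))) (K : ℝ)
    (a : EuclideanSpace ℝ (Fin n) → ℝ) : Prop :=
  ContinuousOn a (closure Ω) ∧ ContDiffOn ℝ 2 a Ω ∧ ∀ x ∈ closure Ω, K⁻¹ ≤ a x ∧ a x ≤ K

/-- Admissible data: continuous lateral data `g` on `∂Ω × [0,T]` and a continuous initial datum `h`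
on the closure of `Ω`, with `g (x, 0) = h x` on `∂Ω`. -/
def AdmissibleData (Ω : Set (EuclideanSpace ℝ (Fin n))) (T : ℝ)
    (g : EuclideanSpace ℝ (Fin n) → ℝ → ℝ) (h : EuclideanSpace ℝ (Fin n) → ℝ) : Prop :=
  ContinuousOn (fun z : EuclideanSpace ℝ (Fin n) × ℝ => g z.1 z.2) (frontier Ω ×ˢ Icc 0 T) ∧
    ContinuousOn h (closure Ω) ∧ ∀ x ∈ frontier Ω, g x 0 = h x

/-- `div (a ∇ w)` at `x`, that is the sum over `i` of `∂_i (a ∂_i w)`. -/
noncomputable def divGrad (a w : EuclideanSpace ℝ (Fin n) → ℝ) (x : EuclideanSpace ℝ (Fin n)) : ℝ :=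
  ∑ i, fderiv ℝ (fun y => a y * fderiv ℝ w y (EuclideanSpace.single i 1)) x
    (EuclideanSpace.single i 1)

/-- The time derivative at `t` in `[0,T]` (one-sided at the end points). -/
noncomputable def timeDeriv (T : ℝ) (u : EuclideanSpace ℝ (Fin n) → ℝ → ℝ)
    (x : EuclideanSpace ℝ (Fin n)) (t : ℝ) : ℝ :=
  derivWithin (fun s => u x s) (Icc 0 T) t

/-- `u` is a classical solution, of class `C^{2,1}` on `Ω × (0,T]` and continuous on the closure of
`Ω` times `[0,T]`, of `u_t = div (a ∇ u)` in `Ω × (0,T)` with lateral data `g` and initial datum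
`h`. -/
structure IsClassicalSolution (Ω : Set (EuclideanSpace ℝ (Fin n))) (T : ℝ)
    (a : EuclideanSpace ℝ (Fin n) → ℝ) (g : EuclideanSpace ℝ (Fin n) → ℝ → ℝ)
    (h : EuclideanSpace ℝ (Fin n) → ℝ) (u : EuclideanSpace ℝ (Fin n) → ℝ → ℝ) : Prop where
  /-- continuity up to the boundary -/
  cont : ContinuousOn (fun z : EuclideanSpace ℝ (Fin n) × ℝ => u z.1 z.2) (closure Ω ×ˢ Icc 0 T)
  /-- two space derivatives -/
  space : ∀ t ∈ Ioc 0 T, ContDiffOn ℝ 2 (fun y => u y t) Ω
  /-- one time derivative -/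
  time : ∀ x ∈ Ω, ∀ t ∈ Ioc 0 T, DifferentiableWithinAt ℝ (fun s => u x s) (Icc 0 T) t
  /-- continuity of the gradient on `Ω × (0,T]` -/
  contGrad : ContinuousOn (fun z : EuclideanSpace ℝ (Fin n) × ℝ =>
    fderiv ℝ (fun y => u y z.2) z.1) (Ω ×ˢ Ioc 0 T)
  /-- continuity of the second space derivatives on `Ω × (0,T]` -/
  contHess : ContinuousOn (fun z : EuclideanSpace ℝ (Fin n) × ℝ =>
    fderiv ℝ (fun x => fderiv ℝ (fun y => u y z.2) x) z.1) (Ω ×ˢ Ioc 0 T)
  /-- continuity of the time derivative on `Ω × (0,T]` -/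
  contTime : ContinuousOn (fun z : EuclideanSpace ℝ (Fin n) × ℝ => timeDeriv T u z.1 z.2)
    (Ω ×ˢ Ioc 0 T)
  /-- the equation -/
  pde : ∀ x ∈ Ω, ∀ t ∈ Ioo 0 T, timeDeriv T u x t = divGrad a (fun y => u y t) x
  /-- the lateral condition -/
  lateral : ∀ x ∈ frontier Ω, ∀ t ∈ Icc 0 T, u x t = g x t
  /-- the initial condition -/
  init : ∀ x ∈ closure Ω, u x 0 = h x

/-- In every dimension `n ≥ 1`, for every bounded open set `Ω` with `C^∞` boundary, every `T > 0`
and `K ≥ 1`, there are admissible data `(g, h)` (independent of the boundary trace of the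
coefficient) such that the state at time `T` determines the admissible coefficient among all
admissible coefficients with the same boundary trace. -/
theorem result (n : ℕ) (hn : 1 ≤ n) (Ω : Set (EuclideanSpace ℝ (Fin n))) (hΩ : IsOpen Ω)
    (hb : Bornology.IsBounded Ω) (hS : SmoothBoundary Ω) (T K : ℝ) (hT : 0 < T) (hK : 1 ≤ K) :
    ∃ (g : EuclideanSpace ℝ (Fin n) → ℝ → ℝ) (h : EuclideanSpace ℝ (Fin n) → ℝ),
      AdmissibleData Ω T g h ∧
      ∀ a1 a2 : EuclideanSpace ℝ (Fin n) → ℝ, Admissible Ω K a1 → Admissible Ω K a2 →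
        (∀ x ∈ frontier Ω, a1 x = a2 x) →
        ∀ u1 u2 : EuclideanSpace ℝ (Fin n) → ℝ → ℝ, IsClassicalSolution Ω T a1 g h u1 →
          IsClassicalSolution Ω T a2 g h u2 → (∀ x ∈ Ω, u1 x T = u2 x T) →
          ∀ x ∈ closure Ω, a1 x = a2 x := by
  have hK0 : 0 < K := by linarith
  have hC : Pool.Agent.H47.ND.C1Boundary Ω := by
    intro x hx
    obtain ⟨U, hU, φ, hφ, hne, hUφ⟩ := hS x hx
    exact ⟨U, hU, φ, hφ.of_le (by exact_mod_cast le_top), hne, hUφ⟩
  obtain ⟨l, hl, H⟩ := Pool.Agent.H47.ND.main_thm (n := n) (by omega) hΩ hb hC hT hK0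
  refine ⟨fun _ t => Pool.Agent.H47.ND.GG l (t - T / 2), fun _ => 1, ⟨?_, continuousOn_const, ?_⟩,
    ?_⟩
  · have h1 := Pool.Agent.H47.ND.continuous_GG l
    exact (h1.comp (by fun_prop)).continuousOn
  · intro x _
    exact Pool.Agent.H47.ND.GG_nonpos (by linarith)
  · intro a1 a2 ha1 ha2 hbd u1 u2 hu1 hu2 hfin
    have good : ∀ {a : EuclideanSpace ℝ (Fin n) → ℝ} {u : EuclideanSpace ℝ (Fin n) → ℝ → ℝ},
        Admissible Ω K a → IsClassicalSolution Ω T a
          (fun _ t => Pool.Agent.H47.ND.GG l (t - T / 2)) (fun _ => 1) u →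
        Pool.Agent.H47.ND.Good Ω T K l a u (timeDeriv T u) := fun {a u} ha hu =>
      { hT := hT
        hK := hK0
        hl := hl
        hΩ := hΩ
        hb := hb
        ha := ha.2.1.of_le (by norm_num)
        haK := ha.2.2
        cls :=
          { cu := hu.cont
            space := hu.space
            cDu := hu.contGrad
            cD2u := hu.contHess
            cut := hu.contTime
            dt := fun x hx t ht => (hu.time x hx t ht).hasDerivWithinAt
            pde := hu.pde }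
        lat := hu.lateral
        init := hu.init }
    exact H (good ha1 hu1) (good ha2 hu2) ha1.1 ha2.1 hbd hfin

end Pool.Agent.Results.MP_3347f5_an.PositiveAnswer
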